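import Mathlib
import Pool.Agent.Q4.Tube.Cf3

set_option autoImplicit false

/-!
# Continued fractions of `F(x) / G(x)` over all integral points near an irrational ray

Continued fractions of bounded length of the rational numbers `F(x) / G(x)`, for all integral points `x`
near the ray spanned by `(1, θ₁, …, θₙ)`, `θᵢ` algebraic, come from finitely many continued fractions of
`F / G` over the polynomials.
-/

namespace Pool.Agent.Results.MP_71c16a_nt.ContinuedFractionsNearRays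

open MvPolynomial

/-- the point `(q, x₁, …, xₙ)`; the variable `none` is the one of `q` -/
def point {n : ℕ} (q : ℕ) (x : Fin n → ℤ) : Option (Fin n) → ℤ := fun o => o.elim (q : ℤ) x

/-- the integral points `(q, x₁, …, xₙ)` near the ray spanned by `(1, θ₁, …, θₙ)`: `q = u w` where `u`
is composed of primes of `S` and `w ≤ q ^ η`, and `|θₛ q - xₛ| ≤ q ^ η` for all `s` -/
def NearRay {n : ℕ} (S : Finset ℕ) (θ : Fin n → ℝ) (η : ℝ) (q : ℕ) (x : Fin n → ℤ) : Prop :=
  (∃ u w : ℕ, q = u * w ∧ u.primeFactors ⊆ S ∧ (w : ℝ) ≤ (q : ℝ) ^ η) ∧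
  ∀ s, |θ s * q - x s| ≤ (q : ℝ) ^ η

/-- numerator and denominator of `[a₀; a₁, …, aₘ] = a₀ + 1 / (a₁ + 1 / (⋯ + 1 / aₘ))` over a ring -/
def contFrac {R : Type} [CommRing R] : List R → R × R
  | [] => (1, 0)
  | a :: l => (a * (contFrac l).1 + (contFrac l).2, (contFrac l).1)

/-- `[a₀; a₁, …, aₘ]`, `m ≥ 0`, is a continued fraction of `f / g`, with integers `a₀` and
`a₁, …, aₘ ≥ 1` -/
def Expands (f g : ℤ) (a : List ℤ) : Prop :=
  a ≠ [] ∧ (∀ b ∈ a.tail, 1 ≤ b) ∧ f * (contFrac a).2 = g * (contFrac a).1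

/-- the value at `(1, θ)` of the homogeneous part of degree `m` -/
noncomputable def atInfinity {n : ℕ} (θ : Fin n → ℝ) (m : ℕ) (F : MvPolynomial (Option (Fin n)) ℤ) : ℝ :=
  aeval (fun o : Option (Fin n) => (o.elim 1 θ : ℝ)) (homogeneousComponent m F)

lemma contFrac_eq {R : Type} [CommRing R] (l : List R) : contFrac l = Pool.Agent.Q4.Tube.cfl l := by
  induction l with
  | nil => rfl
  | cons a l ih => rw [contFrac, Pool.Agent.Q4.Tube.cfl, ih]

/-- Let `n ≥ 1`, `1, θ₁, …, θₙ` real algebraic numbers, linearly independent over `ℚ`, `S` a finite set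
of primes, `F, G ∈ ℤ[X₀, …, Xₙ]`, where the part of degree `deg G` of `G` does not vanish at `(1, θ)`.
For every `ℓ` there are `η > 0`, `N` and a finite set `A` of continued fractions `[A₀; …, Aₘ] = F / G`
with rational polynomials `Aᵢ` such that for all integral points `x = (q, x₁, …, xₙ)` near the ray with
`q ≥ N`, every continued fraction `[a₀; …, aₘ]` of `F(x) / G(x)` with at most `ℓ` partial quotients is
of the form `[A₀(x); …, Aₘ(x)]`, with `[A₀; …, Aₘ] ∈ A`. If `F` and `G` are relatively prime in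
`ℚ[X₀, …, Xₙ]` and have a common zero in `ℂⁿ⁺¹`, then for every `ℓ` there are `η > 0` and `N` such that
all continued fractions of `F(x) / G(x)` have more than `ℓ` partial quotients. -/
theorem result (n : ℕ) (hn : 0 < n) (θ : Fin n → ℝ) (halg : ∀ s, IsAlgebraic ℚ (θ s))
    (hind : LinearIndependent ℚ (fun o : Option (Fin n) => (o.elim 1 θ : ℝ))) (S : Finset ℕ)
    (F G : MvPolynomial (Option (Fin n)) ℤ) (hG : atInfinity θ G.totalDegree G ≠ 0) (ℓ : ℕ) :
    (∃ (η : ℝ) (N : ℕ) (A : Finset (List (MvPolynomial (Option (Fin n)) ℚ))), 0 < η ∧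
      (∀ L ∈ A, map (Int.castRingHom ℚ) F * (contFrac L).2 = map (Int.castRingHom ℚ) G * (contFrac L).1 ∧
        (contFrac L).2 ≠ 0) ∧
      ∀ q ≥ N, ∀ x, NearRay S θ η q x → ∀ a : List ℤ, a.length ≤ ℓ →
        Expands (eval (point q x) F) (eval (point q x) G) a →
        ∃ L ∈ A, a.map (Int.cast : ℤ → ℚ) = L.map (aeval (fun o => ((point q x o : ℤ) : ℚ)))) ∧
    (IsRelPrime (map (Int.castRingHom ℚ) F) (map (Int.castRingHom ℚ) G) →
      (∃ z : Option (Fin n) → ℂ, aeval z F = 0 ∧ aeval z G = 0) →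
      ∃ (η : ℝ) (N : ℕ), 0 < η ∧ ∀ q ≥ N, ∀ x, NearRay S θ η q x → ∀ a : List ℤ,
        Expands (eval (point q x) F) (eval (point q x) G) a → ℓ < a.length) := by
  classical
  have : Nonempty (Fin n) := ⟨⟨0, hn⟩⟩
  have hf : ∀ x : ℕ, x.primeFactors ⊆ S → x.primeFactors ⊆ S.filter Nat.Prime := fun x hx p hp =>
    Finset.mem_filter.2 ⟨hx hp, Nat.prime_of_mem_primeFactors hp⟩
  obtain ⟨η, N, A, hη, hA, h⟩ := Pool.Agent.Q4.Tube.cf_main (S.filter Nat.Prime)
    (fun p hp => (Finset.mem_filter.1 hp).2) halg hind F G F.totalDegree G.totalDegree hG le_rfl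
    (by omega) ℓ
  have hnear : ∀ q x, NearRay S θ η q x → Pool.Agent.Q4.Tube.Near (S.filter Nat.Prime) θ η q x := by
    intro q x hx
    obtain ⟨u, w, h1, h2, h3⟩ := hx.1
    exact ⟨⟨u, w, h1, hf _ h2, h3⟩, hx.2⟩
  have hmain : ∀ q ≥ N, ∀ x, NearRay S θ η q x → ∀ a : List ℤ, a.length ≤ ℓ →
        Expands (eval (point q x) F) (eval (point q x) G) a →
        ∃ L ∈ A, a.map (Int.cast : ℤ → ℚ) = L.map (aeval (fun o => ((point q x o : ℤ) : ℚ))) := by
    intro q hq x hx a ha hE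
    obtain ⟨h1, h2, h3⟩ := hE
    rw [contFrac_eq] at h3
    exact h q hq x (hnear q x hx) a h1 ha h2 h3
  refine ⟨⟨η, N, A, hη, fun L hL => ?_, hmain⟩, fun hrel hz => ⟨η, N, hη, fun q hq x hx a hE => ?_⟩⟩
  · rw [contFrac_eq]
    exact (hA L hL).2
  · by_contra hcon
    obtain ⟨L, hL, -⟩ := hmain q hq x hx a (by omega) hE
    obtain ⟨z, hz1, hz2⟩ := hz
    have hG0 : G ≠ 0 := by
      rintro rfl
      apply hG
      unfold atInfinity
      simp
    exact Pool.Agent.Q4.Tube.no_cfl hG0 hrel z hz1 hz2 L (hA L hL).2.1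

end Pool.Agent.Results.MP_71c16a_nt.ContinuedFractionsNearRays
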