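import Pool.Agent.Results.MP_44a246_nt.ThinSetsSuffice
import Pool.Agent.Q290.NF.Up

/-!
# Vojta's inequality for points of bounded degree: Fermat curves, `D = 0`, thin sets of points

`FermatInequality k l r κ`: the points of degree at most `r` of the Fermat curve `x ^ l + y ^ l = 1`
with `y ^ l - x ^ l = T(u)`, where `T` is the Chebyshev polynomial of degree `2 ^ k` and `u` is in the
field of the point, satisfy `(l - κ) h(x) ≤ d(P) + c`. The canonical height of the Fermat curve is
`(l - 3) h(x)`, so that `κ = 3 + ε` is the inequality of the problem for `D = 0`.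

`CurveInequality r`: the inequality for ALL smooth projective curves `C` over all number fields `k`
and all reduced divisors `D` on `C`, for the points of degree at most `r` over `ℚ`, even with the
truncated counting function: `h_K + h_D ≤ N_S^{(1)}(D, P) + ε h + d(P) + c`. The curve is given by a
finite map `t : C → ℙ¹` over `k` which is unramified outside the fibres over `0`, `1`, `-1` and for
which `D` is contained in these fibres (by Belyi's theorem there is such a map for all `C` and
`D`). Let `N` be the degree of `t` and `A` the ring of the functions on `C` with poles only over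
`∞`: a Dedekind domain, finite over `k[t]`. If `F_j` is the ideal of the points over the `j`-th of the
points `0`, `1`, `-1` which are not points of `D`, then
`deg (K_C + D) / N = 1 - (∑_j dim (A / F_j)) / N`.
The points `P` of `C` (not over `∞`) over a number field `L` are the homomorphisms `A → L` over `k`.
-/

set_option autoImplicit false

namespace Pool.Agent.Results.MP_71c16a_nt.FermatCurvesSuffice

open Polynomial IsDedekindDomain NumberField

/-- The absolute logarithmic height of the point `x` of the line. -/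
noncomputable def height {L : Type} [Field L] [NumberField L] (x : L) : ℝ :=
  Height.logHeight₁ x / Module.finrank ℚ L

/-- The (absolute) logarithmic discriminant `d(L) = log |disc L| / [L : ℚ]`. -/
noncomputable def logDisc (L : Type) [Field L] [NumberField L] : ℝ :=
  Real.log |(NumberField.discr L : ℝ)| / Module.finrank ℚ L

/-- There is `c` such that `(l - κ) h(x) ≤ d(M) + c` for all number fields `M` of degree at most `r`
and all points `(x, y)` over `M` of the Fermat curve `x ^ l + y ^ l = 1` with `y ^ l - x ^ l = T(u)`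
for some `u` in `M`, where `T` is the Chebyshev polynomial of degree `2 ^ k`. -/
def FermatInequality (k l r : ℕ) (κ : ℝ) : Prop :=
  ∃ c : ℝ, ∀ (M : Type) [Field M] [NumberField M], Module.finrank ℚ M ≤ r →
    ∀ x y u : M, x ^ l + y ^ l = 1 → y ^ l - x ^ l = (Chebyshev.T M ((2 : ℤ) ^ k)).eval u →
      (l - κ) * height x ≤ logDisc M + c

/-- The points `0`, `1`, `-1` of the line. -/
def branch (k : Type) [Field k] : Fin 3 → k := ![0, 1, -1]

/-- The function `t` on the curve with the ring of functions `A`. -/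
noncomputable def coord (k A : Type) [Field k] [CommRing A] [Algebra k[X] A] : A :=
  algebraMap k[X] A X

/-- The point `P = φ` of the curve over `L` and the divisor `D` meet at the prime `w` of `L`: here
the part `D_j` of `D` over the `j`-th of the points `0`, `1`, `-1` has the equations
`y_{j 1} = ⋯ = y_{j u_j} = 0`, and `|t(P)|_w ≤ 1` and for some `j` one has `|t(P) - a_j|_w < 1`
and `|y_{j i}(P)|_w < 1` for all `i`. -/
def MeetsAt {k A L : Type} [Field k] [Field L] [NumberField L] [Algebra k L] [CommRing A]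
    [Algebra k A] [Algebra k[X] A] (u : Fin 3 → ℕ) (y : ∀ j, Fin (u j) → A) (φ : A →ₐ[k] L)
    (w : HeightOneSpectrum (𝓞 L)) : Prop :=
  w.valuation L (φ (coord k A)) ≤ 1 ∧
    ∃ j, w.valuation L (φ (coord k A) - algebraMap k L (branch k j)) < 1 ∧
      ∀ i, w.valuation L (φ (y j i)) < 1

open Classical in
/-- The (absolute) truncated counting function `N_S^{(1)}(D, P)`: the sum of `log N(w) / [L : ℚ]`
over the primes `w` of `L`, not above primes in `S`, at which `P` and `D` meet. Every such prime is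
counted once. -/
noncomputable def truncated {k A L : Type} [Field k] [NumberField k] [Field L] [NumberField L]
    [Algebra k L] [CommRing A] [Algebra k A] [Algebra k[X] A]
    (S : Finset (HeightOneSpectrum (𝓞 k))) (u : Fin 3 → ℕ) (y : ∀ j, Fin (u j) → A)
    (φ : A →ₐ[k] L) : ℝ :=
  (∑ᶠ w : HeightOneSpectrum (𝓞 L),
      if (∀ p ∈ S, w.asIdeal.comap (algebraMap (𝓞 k) (𝓞 L)) ≠ p.asIdeal) ∧ MeetsAt u y φ w
      then Real.log (Ideal.absNorm w.asIdeal) else 0) / Module.finrank ℚ L

/-- `1 - (∑_j dim (A / F_j)) / N`, where `N` is the rank of `A` over `k[t]`: the number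
`deg (K_C + D) / N` for the curve `C`. -/
noncomputable def degree (k : Type) {A : Type} [Field k] [CommRing A] [Algebra k A]
    [Algebra k[X] A] (F : Fin 3 → Ideal A) : ℝ :=
  1 - (∑ j, (Module.finrank k (A ⧸ F j) : ℝ)) / Module.finrank k[X] A

/-- The truncated Vojta inequality with discriminant term for the points of degree at most `r`
(over `ℚ`) on all curves over all number fields and all reduced divisors: for all number fields `k`,
all Dedekind domains `A`, finite over `k[t]` and containing it, all closed subsets `D_j`, given by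
`y_{j 1} = ⋯ = y_{j u_j} = 0`, and ideals `F_j ≠ 0` of `A` such that `D_j` and the zeros of `F_j`
together contain the fibre over the `j`-th of the points `0`, `1`, `-1`, all finite sets `S` of
primes of `k` and all `κ > 0` there is `c` such that all points `P = φ` over all number fields
`L ⊇ k` of degree at most `r`, with `t(P)` different from `0`, `1`, `-1`, satisfy
`(deg (K_C + D) / N - κ) h(t(P)) ≤ N_S^{(1)}(D, P) + d(L) + c`. -/
def CurveInequality (r : ℕ) : Prop :=
  ∀ (k A : Type) [Field k] [NumberField k] [CommRing A] [IsDedekindDomain A] [Algebra k A]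
    [Algebra k[X] A] [IsScalarTower k k[X] A] [Module.Finite k[X] A] [FaithfulSMul k[X] A]
    (u : Fin 3 → ℕ) (y : ∀ j, Fin (u j) → A) (F : Fin 3 → Ideal A), (∀ j, F j ≠ ⊥) →
    (∀ j i, ∀ e ∈ F j, y j i * e ∈
      (Ideal.span {coord k A - algebraMap k A (branch k j)}).radical) →
    ∀ (S : Finset (HeightOneSpectrum (𝓞 k))) (κ : ℝ), 0 < κ → ∃ c : ℝ,
      ∀ (L : Type) [Field L] [NumberField L] [Algebra k L], Module.finrank ℚ L ≤ r →
      ∀ φ : A →ₐ[k] L, (∀ j, φ (coord k A) ≠ algebraMap k L (branch k j)) →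
        (degree k F - κ) * height (φ (coord k A)) ≤ truncated S u y φ + logDisc L + c

open Pool.Agent.Q290.NF

theorem logDisc_nonneg (L : Type) [Field L] [NumberField L] : 0 ≤ logDisc L := by
  unfold logDisc
  exact div_nonneg (Pool.Agent.Results.MP_44a246_nt.ThinSetsSuffice.logDisc_nonneg L)
    (Nat.cast_nonneg _)

theorem height_nonneg {L : Type} [Field L] [NumberField L] (x : L) : 0 ≤ height x := by
  unfold height
  exact div_nonneg (Height.zero_le_logHeight₁ _) (Nat.cast_nonneg _)

theorem tv_map {L E : Type} [Field L] [Field E] [Algebra L E] (k : ℕ) (u : L) :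
    algebraMap L E (tv k u) = (Chebyshev.T E ((2 : ℤ) ^ k)).eval (algebraMap L E u) := by
  unfold tv
  rw [← Chebyshev.map_T (algebraMap L E), eval_map_algebraMap, aeval_algebraMap_apply]
  rfl

theorem to_thin {k r : ℕ} (h : ∀ δ : ℝ, 0 < δ → ∃ l : ℕ, 1 ≤ l ∧
    FermatInequality k l (r * l ^ 2) (δ * l)) :
    Pool.Agent.Results.MP_44a246_nt.ThinSetsSuffice.ThinInequality r k := by
  intro ε hε
  obtain ⟨l, hl, c, hc⟩ := h (min ε 1) (lt_min hε one_pos)
  have hl0 : l ≠ 0 := by omega
  refine ⟨c + 2 * Real.log 2 + (Real.log ((2 * l : ℕ) : ℝ) + Real.log ((l * l).factorial : ℝ)), ?_⟩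
  intro L _ _ hL t ht ht1 ht2
  obtain ⟨ht0, u, hu⟩ := Pool.Agent.Results.MP_44a246_nt.ThinSetsSuffice.thin_eq.1 ht
  have hgen : Gen (tv k u)⁻¹ := by
    rw [← hu]
    exact ⟨ht0, ht1, ht2⟩
  obtain ⟨E, i1, i2, i3, x, y, hxy, hs, hdeg, hh, hdisc⟩ := up L hl0 hgen
  have h1 := hc E (by
    refine hdeg.trans ?_
    rw [pow_two]
    exact Nat.mul_le_mul_right _ hL) x y (algebraMap L E u) hxy (by rw [hs, tv_map])
  rw [Pool.Agent.Results.MP_44a246_nt.ThinSetsSuffice.counting_eq]
  unfold height logDisc at h1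
  unfold Pool.Agent.Results.MP_44a246_nt.ThinSetsSuffice.height
    Pool.Agent.Results.MP_44a246_nt.ThinSetsSuffice.logDisc
  rw [← hu] at hh hdisc
  obtain ⟨H, hH⟩ : ∃ H : ℝ, H = Height.logHeight₁ t / Module.finrank ℚ L := ⟨_, rfl⟩
  obtain ⟨X, hX⟩ : ∃ X : ℝ, X = Height.logHeight₁ x / Module.finrank ℚ E := ⟨_, rfl⟩
  rw [← hH] at hh ⊢
  rw [← hX] at hh h1
  have hH0 : 0 ≤ H := by
    rw [hH]
    exact div_nonneg (Height.zero_le_logHeight₁ _) (Nat.cast_nonneg _)
  have hm1 : min ε 1 ≤ 1 := min_le_right _ _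
  have hm2 : min ε 1 ≤ ε := min_le_left _ _
  have hm3 : 0 < min ε 1 := lt_min hε one_pos
  have h2 : (1 - ε) * H ≤ (1 - min ε 1) * H := mul_le_mul_of_nonneg_right (by linarith) hH0
  have h3 : (1 - min ε 1) * H ≤ (1 - min ε 1) * (l * X + 2 * Real.log 2) :=
    mul_le_mul_of_nonneg_left hh (by linarith)
  have h4 : (1 - min ε 1) * (l * X + 2 * Real.log 2) ≤ (l - min ε 1 * l) * X + 2 * Real.log 2 := by
    have h5 : 0 ≤ min ε 1 * (2 * Real.log 2) :=
      mul_nonneg hm3.le (mul_nonneg (by norm_num) (Real.log_nonneg (by norm_num)))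
    nlinarith
  linarith

theorem of_thin {k r l : ℕ} (hl : 1 ≤ l)
    (h : Pool.Agent.Results.MP_44a246_nt.ThinSetsSuffice.ThinInequality r 0) {ε : ℝ}
    (hε : 0 < ε) : FermatInequality k l r (3 + ε) := by
  have hl0 : l ≠ 0 := by omega
  have hl1 : (1 : ℝ) ≤ l := by exact_mod_cast hl
  have hl2 : (0 : ℝ) < l := by linarith
  obtain ⟨c, hc⟩ := h (ε / l) (by positivity)
  have hlog : 0 ≤ Real.log 2 := Real.log_nonneg (by norm_num)
  refine ⟨max c 0 + 4 * Real.log 2, ?_⟩
  intro M _ _ hM x y u hxy hu
  have hD := logDisc_nonneg M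
  have hc0 := le_max_right c 0
  obtain ⟨d, hd⟩ : ∃ d : ℝ, d = (Module.finrank ℚ M : ℝ) := ⟨_, rfl⟩
  have hd0 : 0 < d := by rw [hd]; exact_mod_cast Module.finrank_pos
  -- small heights
  have hsmall : l * Height.logHeight₁ x ≤ d * Real.log 2 →
      (l - (3 + ε)) * height x ≤ logDisc M + (max c 0 + 4 * Real.log 2) := by
    intro h1
    have h2 : (l : ℝ) * height x ≤ Real.log 2 := by
      unfold height
      rw [← hd, mul_div_assoc', div_le_iff₀ hd0, mul_comm (Real.log 2)]
      exact h1
    have h3 := mul_nonneg (by linarith : (0 : ℝ) ≤ 3 + ε) (height_nonneg x)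
    linarith
  by_cases hx : x = 0
  · apply hsmall
    rw [hx, Height.logHeight₁_zero, mul_zero]
    positivity
  by_cases hy : y = 0
  · apply hsmall
    rw [← Height.logHeight₁_pow]
    have : x ^ l = 1 := by rw [← hxy, hy, zero_pow hl0, add_zero]
    rw [this, Height.logHeight₁_one]
    positivity
  by_cases hs : y ^ l - x ^ l = 0
  · apply hsmall
    rw [← Height.logHeight₁_pow]
    have : x ^ l = (2 : M)⁻¹ := by
      refine eq_inv_of_mul_eq_one_left ?_
      linear_combination hxy - hs
    rw [this, Height.logHeight₁_inv, hd]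
    exact height_two' M
  obtain ⟨hgen, hw, hh⟩ := down_fermat hl0 hx hy hxy hs
  obtain ⟨t, ht⟩ : ∃ t : M, t = (y ^ l - x ^ l)⁻¹ := ⟨_, rfl⟩
  rw [← ht] at hgen hw hh
  have hthin : t ∈ Pool.Agent.Results.MP_44a246_nt.ThinSetsSuffice.Thin 0 M := by
    rw [Pool.Agent.Results.MP_44a246_nt.ThinSetsSuffice.thin_eq]
    exact ⟨hgen.1, y ^ l - x ^ l, by rw [tv_zero, ht]⟩
  have h1 := hc M hM t hthin hgen.2.1 hgen.2.2
  rw [Pool.Agent.Results.MP_44a246_nt.ThinSetsSuffice.counting_eq] at h1
  unfold Pool.Agent.Results.MP_44a246_nt.ThinSetsSuffice.height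
    Pool.Agent.Results.MP_44a246_nt.ThinSetsSuffice.logDisc at h1
  unfold height logDisc
  unfold logDisc at hD
  rw [← hd] at hw hh h1 hD ⊢
  obtain ⟨H, hH⟩ : ∃ H : ℝ, H = Height.logHeight₁ t := ⟨_, rfl⟩
  obtain ⟨X, hX⟩ : ∃ X : ℝ, X = Height.logHeight₁ x := ⟨_, rfl⟩
  obtain ⟨W, hW⟩ : ∃ W : ℝ, W = wt (fun v => Near t v) := ⟨_, rfl⟩
  obtain ⟨D, hDD⟩ : ∃ D : ℝ, D = Real.log |(NumberField.discr M : ℝ)| := ⟨_, rfl⟩
  rw [← hH] at hh h1
  rw [← hX] at hh hw ⊢
  rw [← hW] at hw h1
  rw [← hDD] at h1 hD ⊢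
  have hX0 : 0 ≤ X := by rw [hX]; exact Height.zero_le_logHeight₁ _
  have hH0 : 0 ≤ H := by rw [hH]; exact Height.zero_le_logHeight₁ _
  have hD0 : 0 ≤ D := by
    have := mul_nonneg hD hd0.le
    rwa [div_mul_cancel₀ _ hd0.ne'] at this
  have hdl : 0 ≤ d * Real.log 2 := mul_nonneg hd0.le hlog
  -- multiply by `d`
  have h2 : (1 - ε / l) * H ≤ W + D + d * c := by
    have h3 := mul_le_mul_of_nonneg_right h1 hd0.le
    have e1 : (1 - ε / l) * (H / d) * d = (1 - ε / l) * H := by field_simp
    have e2 : (W / d + D / d + c) * d = W + D + d * c := by field_simp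
    rwa [e1, e2] at h3
  have h4 : d * c ≤ d * max c 0 := mul_le_mul_of_nonneg_left (le_max_left _ _) hd0.le
  have h5 : (l - (3 + ε)) * X ≤ D + d * (max c 0 + 4 * Real.log 2) := by
    by_cases h6 : ε / l ≤ 1
    · have h7 : (1 - ε / l) * (l * X) ≤ (1 - ε / l) * (H + 2 * (d * Real.log 2)) :=
        mul_le_mul_of_nonneg_left hh (by linarith)
      have h8 : (1 - ε / l) * (2 * (d * Real.log 2)) ≤ 1 * (2 * (d * Real.log 2)) := by
        refine mul_le_mul_of_nonneg_right ?_ (by linarith)
        have : 0 ≤ ε / l := by positivity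
        linarith
      have e3 : (1 - ε / l) * (l * X) = (l - ε) * X := by field_simp
      rw [e3] at h7
      have e4 : (l - (3 + ε)) * X = (l - ε) * X - 3 * X := by ring
      rw [e4]
      nlinarith
    · rw [not_le, one_lt_div hl2] at h6
      have h7 : (l - (3 + ε)) * X ≤ 0 := mul_nonpos_of_nonpos_of_nonneg (by linarith) hX0
      have h8 : 0 ≤ d * (max c 0 + 4 * Real.log 2) := by positivity
      linarith
  have h9 := div_le_div_of_nonneg_right h5 hd0.le
  refine le_trans (le_of_eq ?_) (h9.trans (le_of_eq ?_))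
  · ring
  · field_simp

/-- **Vojta's inequality on Fermat curves with `D = 0` at thin sets of points implies it, with
truncated counting function, for all curves and divisors.** Let `k` be any natural number (the
Chebyshev polynomial has degree `2 ^ k`).
(1) Let `r ≥ 0`. If for every `δ > 0` there is an exponent `l ≥ 1` such that
`(1 - δ) l h(x) ≤ d(M) + c` for all points `(x, y)` of the Fermat curve `x ^ l + y ^ l = 1` over all
number fields `M` of degree at most `r l ^ 2`, with `y ^ l - x ^ l` in the thin set `T(M)`, then the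
inequality holds for the points of degree at most `r` on all curves over all number fields, all
reduced divisors and all `S`.
(2) Conversely this implies `(l - 3 - ε) h(x) ≤ d(M) + c` for all points of degree at most `r` as in
(1) on all Fermat curves.
(3) So for every `k` the inequality for points of bounded degree on all curves is equivalent to its
case of Fermat curves, `D = 0` and points with `y ^ l - x ^ l` in `T(M)`. -/
theorem result (k : ℕ) :
    (∀ r : ℕ, (∀ δ : ℝ, 0 < δ → ∃ l : ℕ, 1 ≤ l ∧ FermatInequality k l (r * l ^ 2) (δ * l)) →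
      CurveInequality r) ∧
    (∀ r l : ℕ, 1 ≤ l → CurveInequality r → ∀ ε : ℝ, 0 < ε →
      FermatInequality k l r (3 + ε)) ∧
    ((∀ r l : ℕ, 1 ≤ l → ∀ ε : ℝ, 0 < ε → FermatInequality k l r (3 + ε)) ↔
      ∀ r : ℕ, CurveInequality r) := by
  have p1 : ∀ r : ℕ, (∀ δ : ℝ, 0 < δ → ∃ l : ℕ, 1 ≤ l ∧
      FermatInequality k l (r * l ^ 2) (δ * l)) → CurveInequality r := fun r h =>
    Pool.Agent.Results.MP_44a246_nt.ThinSetsSuffice.to_curve (to_thin h)
  have p2 : ∀ r l : ℕ, 1 ≤ l → CurveInequality r → ∀ ε : ℝ, 0 < ε →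
      FermatInequality k l r (3 + ε) := fun r l hl h ε hε =>
    of_thin hl (Pool.Agent.Results.MP_44a246_nt.ThinSetsSuffice.of_curve h) hε
  refine ⟨p1, p2, fun h r => p1 r fun δ hδ => ?_, fun h r l hl ε hε => p2 r l hl (h r) ε hε⟩
  obtain ⟨l, hl⟩ := exists_nat_gt (4 / δ)
  have hl0 : (0 : ℝ) < l := lt_trans (by positivity) hl
  have hl1 : 1 ≤ l := by exact_mod_cast hl0
  refine ⟨l, hl1, ?_⟩
  obtain ⟨c, hc⟩ := h (r * l ^ 2) l hl1 1 one_pos
  refine ⟨c, fun M _ _ hM x y u hxy hu => le_trans ?_ (hc M hM x y u hxy hu)⟩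
  refine mul_le_mul_of_nonneg_right ?_ (height_nonneg x)
  rw [div_lt_iff₀ hδ] at hl
  linarith

end Pool.Agent.Results.MP_71c16a_nt.FermatCurvesSuffice
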