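import Pool.Agent.Q13.CQ.Fin

set_option autoImplicit false

/-!
# Vojta's inequality for curves of low degree in the plane, at the archimedean place

`X = ℙ²` over `ℚ`, `S = {∞}`, rational points. The divisor `D` is the sum of the curves
`{F i = 0}` over `ℚ` and of the lines `{L j = 0}` with algebraic coefficients.
-/

namespace Pool.Agent.Results.MP_71c16a_nt.LinesAndConics

open MvPolynomial

/-- The coprime homogeneous coordinates of the rational points of the plane. -/
def Coprime (x : Fin 3 → ℤ) : Prop := ∀ g : ℤ, (∀ j, g ∣ x j) → IsUnit g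

/-- The multiplicative height of the rational point with coprime coordinates `x`. -/
noncomputable def H (x : Fin 3 → ℤ) : ℝ := ⨆ j, |(x j : ℝ)|

/-- The value at `x` of the linear form with coefficients `c`. -/
noncomputable def line (c : Fin 3 → ℂ) (x : Fin 3 → ℝ) : ℂ := ∑ b, c b * (x b : ℂ)

/-- The components `{F i = 0}` and `{L j = 0}` are smooth and transversal at the real points: for
every real point `P` of the plane the gradients at `P` of the components that contain `P` are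
linearly independent. -/
def NormalCrossings {q r : ℕ} (F : Fin q → MvPolynomial (Fin 3) ℤ) (L : Fin r → Fin 3 → ℂ) :
    Prop :=
  ∀ P : Fin 3 → ℝ, P ≠ 0 → LinearIndependent ℂ (Sum.elim
    (fun (i : {i // aeval P (F i) = 0}) (b : Fin 3) => ((aeval P (pderiv b (F i.1)) : ℝ) : ℂ))
    (fun (j : {j // line (L j) P = 0}) => L j.1))

/-- The proximity function `m_{∞,D}(x)` of `D = ∑ {F i = 0} + ∑ {L j = 0}`, with `F i` of degree
`d i`, at the rational point with coprime coordinates `x`. -/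
noncomputable def proximity {q r : ℕ} (F : Fin q → MvPolynomial (Fin 3) ℤ) (d : Fin q → ℕ)
    (L : Fin r → Fin 3 → ℂ) (x : Fin 3 → ℤ) : ℝ :=
  ∑ i, Real.log (H x ^ d i / |((eval x (F i) : ℤ) : ℝ)|) +
    ∑ j, Real.log (H x / ‖line (L j) fun b => (x b : ℝ)‖)

/-- Let `D` be the sum of curves `{F i = 0}` of degrees `d i ≤ δ` over `ℚ`, where `δ ≥ 2`, and of
lines with algebraic coefficients, with normal crossings at the real points. Then for every
`ε > 0` there are finitely many lines over `ℚ` and a constant `C` such that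
`m_{∞,D}(x) ≤ (δ + 1 + ε) h(x) + C` for all rational points `x` off `D` and these lines.

For `δ = 2`, that is for conics and lines, this is Vojta's inequality
`h_K(x) + m_{∞,D}(x) ≤ ε h(x) + C`, as `h_K = -3 h`. -/
theorem result {q r : ℕ} (F : Fin q → MvPolynomial (Fin 3) ℤ) (d : Fin q → ℕ)
    (hF : ∀ i, (F i).IsHomogeneous (d i)) (L : Fin r → Fin 3 → ℂ)
    (hL : ∀ j b, IsAlgebraic ℚ (L j b)) (hNC : NormalCrossings F L)
    (δ : ℕ) (hδ : 2 ≤ δ) (hd : ∀ i, d i ≤ δ) (ε : ℝ) (hε : 0 < ε) :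
    ∃ (Z : Finset (Fin 3 → ℤ)) (C : ℝ), (∀ z ∈ Z, z ≠ 0) ∧ ∀ x : Fin 3 → ℤ, Coprime x →
      (∀ i, eval x (F i) ≠ 0) → (∀ j, line (L j) (fun b => (x b : ℝ)) ≠ 0) →
      (∀ z ∈ Z, ∑ l, z l * x l ≠ 0) →
      proximity F d L x ≤ (δ + 1 + ε) * Real.log (H x) + C := by
  classical
  have hNC' : Pool.Agent.Q13.CQ.NC F L := by
    intro P hP
    have h1 := hNC P hP
    let e : {i : Fin q ⊕ Fin r // Pool.Agent.Q13.CQ.val F L i P = 0} →
        {i // aeval P (F i) = 0} ⊕ {j // line (L j) P = 0} := fun s =>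
      match s with
      | ⟨Sum.inl i, h⟩ => Sum.inl ⟨i, abs_eq_zero.1 h⟩
      | ⟨Sum.inr j, h⟩ => Sum.inr ⟨j, norm_eq_zero.1 h⟩
    have he : Function.Injective e := by
      rintro ⟨i | i, hi⟩ ⟨j | j, hj⟩ h
      · have := Sum.inl_injective h
        have h2 : i = j := congrArg Subtype.val this
        subst h2
        rfl
      · exact absurd h (by simp [e])
      · exact absurd h (by simp [e])
      · have := Sum.inr_injective h
        have h2 : i = j := congrArg Subtype.val this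
        subst h2
        rfl
    have h2 := h1.comp e he
    convert h2 using 1
    funext s
    obtain ⟨i | i, hi⟩ := s
    · rfl
    · rfl
  obtain ⟨Z, C, hZ, h⟩ := Pool.Agent.Q13.CQ.main F L d hδ hd hF hL hNC' ε hε
  refine ⟨Z, C, hZ, fun x hx hFx hLx hZx => ?_⟩
  have hx0 : x ≠ 0 := by
    intro h0
    have := hx 0 (fun j => by rw [h0]; simp)
    exact not_isUnit_zero this
  have e1 : ∀ i, aeval (Pool.Agent.Q13.CQ.rv x) (F i) = ((eval x (F i) : ℤ) : ℝ) := by
    intro i
    have h2 := MvPolynomial.comp_aeval_apply (R := ℤ) x ((Int.castRingHom ℝ).toIntAlgHom) (F i)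
    have h1 : ((Int.castRingHom ℝ).toIntAlgHom : ℤ →ₐ[ℤ] ℝ) (aeval x (F i)) =
      ((aeval x (F i) : ℤ) : ℝ) := rfl
    have h3 : (aeval x (F i) : ℤ) = eval x (F i) := rfl
    rw [← h3, ← h1, h2]
    rfl
  have hv : ∀ i, Pool.Agent.Q13.CQ.val F L i (Pool.Agent.Q13.CQ.rv x) ≠ 0 := by
    rintro (i | j)
    · show |aeval (Pool.Agent.Q13.CQ.rv x) (F i)| ≠ 0
      rw [e1, abs_ne_zero]
      exact_mod_cast hFx i
    · exact norm_ne_zero_iff.2 (hLx j)
  have h1 := h x hx0 (Pool.Agent.Q13.CQ.mem_sphere hx0) hv hZx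
  rw [Fintype.sum_sum_type] at h1
  have h2 : ∑ i, Real.log (Pool.Agent.W180.RR.hgt x ^ Pool.Agent.Q13.CQ.dg d r (Sum.inl i) /
      Pool.Agent.Q13.CQ.val F L (Sum.inl i) (Pool.Agent.Q13.CQ.rv x)) =
      ∑ i, Real.log (H x ^ d i / |((eval x (F i) : ℤ) : ℝ)|) := by
    refine Finset.sum_congr rfl fun i _ => ?_
    have h3 : Pool.Agent.Q13.CQ.val F L (Sum.inl i) (Pool.Agent.Q13.CQ.rv x) =
        |((eval x (F i) : ℤ) : ℝ)| := by
      rw [← e1]
      rfl
    rw [h3]
    rfl
  have h3 : ∑ j, Real.log (Pool.Agent.W180.RR.hgt x ^ Pool.Agent.Q13.CQ.dg d r (Sum.inr j) /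
      Pool.Agent.Q13.CQ.val F L (Sum.inr j) (Pool.Agent.Q13.CQ.rv x)) =
      ∑ j, Real.log (H x / ‖line (L j) fun b => (x b : ℝ)‖) := by
    refine Finset.sum_congr rfl fun j _ => ?_
    have h4 : Pool.Agent.Q13.CQ.dg d r (Sum.inr j) = 1 := rfl
    rw [h4, pow_one]
    rfl
  rw [h2, h3] at h1
  exact h1

end Pool.Agent.Results.MP_71c16a_nt.LinesAndConics
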