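import Mathlib
import Pool.Agent.Q4.Cov.Roth

set_option autoImplicit false

/-!
# A Roth–Ridout theorem for the fibres of finite covers over truncated expansions

How well can the roots of `P(x_q, Y)` be approximated by rational numbers with denominators composed
of given primes, where `P(X₀, …, Xₙ, Y) = 0` is a finite cover of affine space and
`x_q = (q, ⌊θ₁ q⌋, …, ⌊θₙ q⌋)`?
-/

namespace Pool.Agent.Results.MP_71c16a_nt.RothOverTruncations

open MvPolynomial

/-- the point `x_q = (q, ⌊θ₁ q⌋, …, ⌊θₙ q⌋)`; the variable `none` is the one of `q` -/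
noncomputable def point {n : ℕ} (θ : Fin n → ℝ) (q : ℕ) : Option (Fin n) → ℤ :=
  fun o => o.elim (q : ℤ) (fun s => ⌊θ s * q⌋)

/-- the polynomial `P(x_q, Y)` with complex coefficients -/
noncomputable def fibre {n : ℕ} (θ : Fin n → ℝ) (q : ℕ)
    (P : Polynomial (MvPolynomial (Option (Fin n)) ℤ)) : Polynomial ℂ :=
  P.map ((Int.castRingHom ℂ).comp (eval (point θ q)))

/-- the fibre at the point `(0 : 1 : θ₁ : … : θₙ)` at infinity: `Σᵢ topᵢ(1, θ) Yⁱ`, where `topᵢ` is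
the homogeneous part of degree `(deg P - i) D` of the `i`-th coefficient of `P` -/
noncomputable def fibreAtInfinity {n : ℕ} (θ : Fin n → ℝ) (D : ℕ)
    (P : Polynomial (MvPolynomial (Option (Fin n)) ℤ)) : Polynomial ℝ :=
  ∑ i ∈ Finset.range (P.natDegree + 1),
    Polynomial.C (aeval (fun o : Option (Fin n) => (o.elim 1 θ : ℝ))
      (homogeneousComponent ((P.natDegree - i) * D) (P.coeff i))) * Polynomial.X ^ i

/-- Let `1, θ₁, …, θₙ` be real algebraic numbers, linearly independent over `ℚ`, `S` a finite set of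
primes, and `P ∈ ℤ[X₀, …, Xₙ][Y]` monic in `Y` whose `i`-th coefficient has total degree at most
`(deg P - i) D`, such that the fibre at infinity over `(0 : 1 : θ₁ : … : θₙ)` is separable. Let
`K ∈ ℕ` and `ε > 0`. There is a finite set `A` of rational polynomials of degree at most `K + D`
such that for all large positive integers `q` composed of primes of `S`, all complex roots `ρ` of
`P(x_q, Y)`, all positive integers `c ≤ q ^ K` composed of primes of `S` and all integers `z`: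
either `z / c = G(x_q) / q ^ K` for some `G ∈ A`, or `|ρ - z / c| > q ^ (-ε) / c`. -/
theorem result (n : ℕ) (θ : Fin n → ℝ) (halg : ∀ s, IsAlgebraic ℚ (θ s))
    (hind : LinearIndependent ℚ (fun o : Option (Fin n) => (o.elim 1 θ : ℝ))) (S : Finset ℕ)
    (P : Polynomial (MvPolynomial (Option (Fin n)) ℤ)) (hP : P.Monic) (D : ℕ)
    (hdeg : ∀ i, (P.coeff i).totalDegree ≤ (P.natDegree - i) * D)
    (hsep : (fibreAtInfinity θ D P).Separable) (K : ℕ) (ε : ℝ) (hε : 0 < ε) :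
    ∃ (A : Finset (MvPolynomial (Option (Fin n)) ℚ)) (q₀ : ℕ),
      (∀ G ∈ A, G.totalDegree ≤ K + D) ∧
      ∀ q ≥ q₀, q.primeFactors ⊆ S → ∀ ρ : ℂ, (fibre θ q P).eval ρ = 0 →
        ∀ c : ℕ, 0 < c → c ≤ q ^ K → c.primeFactors ⊆ S → ∀ z : ℤ,
          (∃ G ∈ A, (z : ℚ) / c = aeval (fun o => ((point θ q o : ℤ) : ℚ)) G / (q : ℚ) ^ K) ∨
          (q : ℝ) ^ (-ε) / c < ‖ρ - (z : ℂ) / c‖ := by
  classical
  have hf : ∀ x : ℕ, x.primeFactors ⊆ S → x.primeFactors ⊆ S.filter Nat.Prime := fun x hx p hp =>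
    Finset.mem_filter.2 ⟨hx hp, Nat.prime_of_mem_primeFactors hp⟩
  obtain ⟨A, q₀, h⟩ := Pool.Agent.Q4.Cov.approx_roots (S.filter Nat.Prime)
    (fun p hp => (Finset.mem_filter.1 hp).2) θ halg hind P D hP hdeg hsep K ε hε
  refine ⟨A.filter (fun G => G.totalDegree ≤ K + D), q₀, fun G hG => (Finset.mem_filter.1 hG).2,
    fun q hq hS ρ hρ c hc hcK hcS z => ?_⟩
  by_cases hlt : (q : ℝ) ^ (-ε) / c < ‖ρ - (z : ℂ) / c‖
  · exact Or.inr hlt
  left
  rw [not_lt] at hlt
  have hc0 : (c : ℂ) ≠ 0 := by exact_mod_cast hc.ne'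
  have hcr : (0 : ℝ) < c := by exact_mod_cast hc
  have h1 : (c : ℂ) * ρ - z = c * (ρ - (z : ℂ) / c) := by
    field_simp
  have h2 : ‖(c : ℂ) * ρ - z‖ ≤ (q : ℝ) ^ (-ε) := by
    rw [h1, norm_mul, Complex.norm_natCast]
    calc (c : ℝ) * ‖ρ - (z : ℂ) / c‖ ≤ c * ((q : ℝ) ^ (-ε) / c) :=
          mul_le_mul_of_nonneg_left hlt hcr.le
      _ = (q : ℝ) ^ (-ε) := by field_simp
  obtain ⟨G, hG, hGd, hz⟩ := h q hq (hf _ hS) c hc.ne' (hf _ hcS) hcK z ρ hρ h2
  exact ⟨G, Finset.mem_filter.2 ⟨hG, hGd⟩, hz⟩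

end Pool.Agent.Results.MP_71c16a_nt.RothOverTruncations
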